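import Pool.Agent.Q309.CPG.Main

/-!
# MP_486437_lc

Every countable model `M` of Peano arithmetic has a strongly CP-generic subset `X` such that
`(M, X)` has no proper elementary extension `(N, Y)` with `Y` strongly CP-generic in `N`.
-/

set_option autoImplicit false

namespace Pool.Agent.Results.MP_486437_lc.NoGenericExtension

open FirstOrder FirstOrder.Language Pool.Agent.Q309.CPG

universe u v

/-- The standard model. -/
@[reducible] def stdStr : LPA.Structure ℕ where
  funMap
    | .zero => fun _ => 0
    | .one => fun _ => 1
    | .add => fun t => t 0 + t 1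
    | .mul => fun t => t 0 * t 1
  RelMap | .lt => fun t => t 0 < t 1

theorem isPA_nat : @IsPA ℕ stdStr := by
  let := stdStr
  have ha : ∀ x y : ℕ, pAdd x y = x + y := fun _ _ => rfl
  have hm : ∀ x y : ℕ, pMul x y = x * y := fun _ _ => rfl
  have hl : ∀ x y : ℕ, pLt x y ↔ x < y := fun _ _ => Iff.rfl
  have h0 : (pZero : ℕ) = 0 := rfl
  have h1 : (pOne : ℕ) = 1 := rfl
  constructor
  · intro x y z
    simp only [ha]
    omega
  · intro x y
    simp only [ha]
    omega
  · intro x y z
    simp only [hm]
    exact Nat.mul_assoc x y z
  · intro x y
    simp only [hm]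
    exact Nat.mul_comm x y
  · intro x y z
    simp only [hm, ha]
    exact Nat.mul_add x y z
  · intro x
    simp only [ha, h0]
    omega
  · intro x
    simp only [hm, h0]
    exact Nat.mul_zero x
  · intro x
    simp only [hm, h1]
    exact Nat.mul_one x
  · intro x y z
    simp only [hl]
    omega
  · intro x
    simp only [hl]
    omega
  · intro x y
    simp only [hl]
    omega
  · intro x y z
    simp only [hl, ha]
    omega
  · intro x y z
    simp only [hl, hm, h0]
    intro hz hxy
    exact Nat.mul_lt_mul_of_pos_right hxy hz
  · intro x y
    simp only [hl, ha]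
    intro hxy
    exact ⟨y - x, by omega⟩
  · simp only [hl, h0, h1]
    omega
  · intro x
    simp only [hl, h0, h1]
    omega
  · intro x
    simp only [hl, h0]
    omega
  · intro S _ hS hS' x
    induction x with
    | zero => exact hS
    | succ x ih => exact hS' x ih

/-- There is a countable model of Peano arithmetic (namely `ℕ`), and every countable model `M` of
Peano arithmetic has a strongly CP-generic subset `X` such that, for every elementary extension
`(N, Y)` of `(M, X)` for which `Y` is strongly CP-generic in `N`, the embedding of `M` into `N`
is surjective; that is, no proper elementary extension of `(M, X)` is strongly CP-generic. -/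
theorem result :
    (∃ s : LPA.Structure ℕ, @IsPA ℕ s) ∧
    ∀ (M : Type u) [LPA.Structure M] [Countable M], IsPA M →
      ∃ X : Set M, StronglyCPGeneric X ∧
        ∀ (N : Type v) [LPA.Structure N] (Y : Set N), IsPA N → StronglyCPGeneric Y →
          ∀ f : ElemEmb X Y, Function.Surjective f.fn := by
  refine ⟨⟨stdStr, isPA_nat⟩, fun M _ _ hM => ?_⟩
  let := hM.semiring
  let := hM.order
  have := hM.ordered
  have := hM.model
  exact main_aux

end Pool.Agent.Results.MP_486437_lc.NoGenericExtension
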